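import Mathlib
import Pool.Agent.H68R2.BP.Props2

open scoped ComplexOrder InnerProductSpace ComplexConjugate Topology
open Finset Filter

noncomputable section

namespace H68R2.BP.Ehbaux

open H759R2.Kad H744R2.KZ

/-- A commuting pair of representations of `B(H)`. -/
structure CR {H K : Type} [NormedAddCommGroup H] [InnerProductSpace ℂ H] [CompleteSpace H]
    [NormedAddCommGroup K] [InnerProductSpace ℂ K] [CompleteSpace K]
    (l r : (H →L[ℂ] H) → (K →L[ℂ] K)) : Prop where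
  l_add : ∀ x y, l (x + y) = l x + l y
  l_smul : ∀ (c : ℂ) x, l (c • x) = c • l x
  l_mul : ∀ x y, l (x * y) = l x * l y
  l_star : ∀ x, l (star x) = star (l x)
  l_one : l 1 = 1
  l_norm : ∀ x, ‖l x‖ ≤ ‖x‖
  r_add : ∀ x y, r (x + y) = r x + r y
  r_smul : ∀ (c : ℂ) x, r (c • x) = conj c • r x
  r_mul : ∀ x y, r (x * y) = r x * r y
  r_star : ∀ x, r (star x) = star (r x)
  r_one : r 1 = 1
  r_norm : ∀ x, ‖r x‖ ≤ ‖x‖
  comm : ∀ x y, l x * r y = r y * l x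

section dgs

variable {S : Type} [NormedAddCommGroup S] [InnerProductSpace ℂ S] [CompleteSpace S]

omit [CompleteSpace S] in
theorem dg_add (n : ℕ) (a b : S →L[ℂ] S) : dg n (a + b) = dg n a + dg n b := by
  ext v i
  simp [dg_apply]

omit [CompleteSpace S] in
theorem dg_smul (n : ℕ) (c : ℂ) (a : S →L[ℂ] S) : dg n (c • a) = c • dg n a := by
  ext v i
  simp [dg_apply]

omit [CompleteSpace S] in
theorem dg_mul (n : ℕ) (a b : S →L[ℂ] S) : dg n (a * b) = dg n a * dg n b := by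
  ext v i
  simp [dg_apply]

omit [CompleteSpace S] in
theorem dg_one (n : ℕ) : dg n (1 : S →L[ℂ] S) = 1 := by
  ext v i
  simp [dg_apply]

theorem dg_star (n : ℕ) (a : S →L[ℂ] S) : dg n (star a) = star (dg n a) := by
  rw [ContinuousLinearMap.star_eq_adjoint, ContinuousLinearMap.star_eq_adjoint]
  rw [ContinuousLinearMap.eq_adjoint_iff]
  intro v w
  rw [PiLp.inner_apply, PiLp.inner_apply]
  refine Finset.sum_congr rfl fun i _ => ?_
  rw [dg_apply, dg_apply, ContinuousLinearMap.adjoint_inner_left]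

omit [CompleteSpace S] in
theorem dg_norm (n : ℕ) (a : S →L[ℂ] S) : ‖dg n a‖ ≤ ‖a‖ := by
  refine ContinuousLinearMap.opNorm_le_bound _ (norm_nonneg _) fun v => ?_
  have h1 : ‖dg n a v‖ ^ 2 ≤ (‖a‖ * ‖v‖) ^ 2 := by
    rw [PiLp.norm_sq_eq_of_L2, mul_pow, PiLp.norm_sq_eq_of_L2, Finset.mul_sum]
    refine Finset.sum_le_sum fun i _ => ?_
    rw [dg_apply, ← mul_pow]
    exact pow_le_pow_left₀ (norm_nonneg _) (a.le_opNorm _) 2
  exact (pow_le_pow_iff_left₀ (norm_nonneg _) (by positivity) two_ne_zero).1 h1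

end dgs

theorem CR_dg {H S κ : Type} [NormedAddCommGroup H] [InnerProductSpace ℂ H] [CompleteSpace H]
    [NormedAddCommGroup S] [InnerProductSpace ℂ S] [CompleteSpace S]
    (b : HilbertBasis κ ℂ H) (l₀ r₀ : (H →L[ℂ] H) → (S →L[ℂ] S)) (th : κ → κ → S)
    (hm : MinRep b l₀ r₀ th) (n : ℕ) :
    CR (fun x => dg n (l₀ x)) (fun x => dg n (r₀ x)) where
  l_add x y := by rw [hm.l_add, dg_add]
  l_smul c x := by rw [hm.l_smul, dg_smul]
  l_mul x y := by rw [hm.l_mul, dg_mul]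
  l_star x := by rw [hm.l_star, dg_star]
  l_one := by rw [hm.l_one, dg_one]
  l_norm x := (dg_norm _ _).trans (hm.l_norm x)
  r_add x y := by rw [hm.r_add, dg_add]
  r_smul c x := by rw [hm.r_smul, dg_smul]
  r_mul x y := by rw [hm.r_mul, dg_mul]
  r_star x := by rw [hm.r_star, dg_star]
  r_one := by rw [hm.r_one, dg_one]
  r_norm x := (dg_norm _ _).trans (hm.r_norm x)
  comm x y := by rw [← dg_mul, ← dg_mul, hm.comm]

section one

variable {H K : Type} [NormedAddCommGroup H] [InnerProductSpace ℂ H] [CompleteSpace H]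
  [NormedAddCommGroup K] [InnerProductSpace ℂ K] [CompleteSpace K]

theorem pr_pyth (E : K →L[ℂ] K) (h1 : star E = E) (h2 : E * E = E) (h : K) :
    ‖h - E h‖ ^ 2 = ‖h‖ ^ 2 - ‖E h‖ ^ 2 := by
  have e1 : ⟪h, E h⟫_ℂ = ⟪E h, E h⟫_ℂ := by
    have e2 : E h = E (E h) := by
      conv_lhs => rw [← h2]
      rfl
    conv_lhs => rw [e2]
    have e3 : ⟪h, E (E h)⟫_ℂ = ⟪(ContinuousLinearMap.adjoint E) h, E h⟫_ℂ :=
      (ContinuousLinearMap.adjoint_inner_left E (E h) h).symm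
    rw [e3, ← ContinuousLinearMap.star_eq_adjoint, h1]
  rw [@norm_sub_sq ℂ, e1, inner_self_eq_norm_sq (𝕜 := ℂ)]
  ring

theorem est (l r : (H →L[ℂ] H) → (K →L[ℂ] K)) (hc : CR l r) (p : H →L[ℂ] H) (hp : IsPr p)
    (h k : K) (hh : ‖h‖ ≤ 1) (hk : ‖k‖ ≤ 1) (a : ℝ) (ha : a = (⟪k, l p (r p h)⟫_ℂ).re) :
    ‖h - k‖ ≤ 2 * √(2 * (1 - a)) ∧ ‖h - l p h‖ ≤ √(2 * (1 - a)) ∧
      ‖h - r p h‖ ≤ √(2 * (1 - a)) ∧ a ≤ ‖h‖ ∧ a ≤ 1 := by
  obtain ⟨hp1, hp2⟩ := hp
  have lp1 : star (l p) = l p := by rw [← hc.l_star, hp1]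
  have lp2 : l p * l p = l p := by rw [← hc.l_mul, hp2]
  have rp1 : star (r p) = r p := by rw [← hc.r_star, hp1]
  have rp2 : r p * r p = r p := by rw [← hc.r_mul, hp2]
  have E1 : star (l p * r p) = l p * r p := by rw [star_mul, lp1, rp1, hc.comm]
  have E2 : (l p * r p) * (l p * r p) = l p * r p := by
    calc (l p * r p) * (l p * r p) = l p * (r p * l p) * r p := by noncomm_ring
      _ = l p * (l p * r p) * r p := by rw [hc.comm]
      _ = (l p * l p) * (r p * r p) := by noncomm_ring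
      _ = _ := by rw [lp2, rp2]
  set v : K := l p (r p h) with hv
  have hv' : v = (l p * r p) h := rfl
  have p0 := pr_pyth (l p * r p) E1 E2 h
  rw [← hv'] at p0
  have p1 := pr_pyth (l p) lp1 lp2 (h - v)
  have p2 := pr_pyth (r p) rp1 rp2 (h - v)
  have lv : l p v = v := by
    have : (l p * (l p * r p)) h = (l p * r p) h := by rw [← mul_assoc, lp2]
    exact this
  have rv : r p v = v := by
    have : (r p * (l p * r p)) h = (l p * r p) h := by
      rw [← mul_assoc, ← hc.comm, mul_assoc, rp2]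
    exact this
  have q1 : h - v - l p (h - v) = h - l p h := by rw [map_sub, lv]; abel
  have q2 : h - v - r p (h - v) = h - r p h := by rw [map_sub, rv]; abel
  rw [q1] at p1
  rw [q2] at p2
  have vh : ‖v‖ ≤ ‖h‖ := by
    have : ‖v‖ ^ 2 ≤ ‖h‖ ^ 2 := by nlinarith [sq_nonneg ‖h - v‖]
    exact (pow_le_pow_iff_left₀ (norm_nonneg _) (norm_nonneg _) two_ne_zero).1 this
  have av : a ≤ ‖v‖ := by
    rw [ha]
    calc (⟪k, v⟫_ℂ).re ≤ ‖⟪k, v⟫_ℂ‖ := Complex.re_le_norm _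
      _ ≤ ‖k‖ * ‖v‖ := norm_inner_le_norm _ _
      _ ≤ 1 * ‖v‖ := mul_le_mul_of_nonneg_right hk (norm_nonneg _)
      _ = ‖v‖ := one_mul _
  have hv1 : ‖h - v‖ ^ 2 ≤ 2 * (1 - a) := by
    rw [p0]
    have h0 := norm_nonneg v
    have h1 := norm_nonneg h
    nlinarith
  have kv1 : ‖k - v‖ ^ 2 ≤ 2 * (1 - a) := by
    rw [@norm_sub_sq ℂ]
    have e : RCLike.re ⟪k, v⟫_ℂ = a := ha.symm
    rw [e]
    have h0 := norm_nonneg v
    have h1 := norm_nonneg k
    have h2 := norm_nonneg h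
    nlinarith
  have sq : ∀ x : K, ‖x‖ ^ 2 ≤ 2 * (1 - a) → ‖x‖ ≤ √(2 * (1 - a)) := fun x hx =>
    Real.le_sqrt_of_sq_le hx
  refine ⟨?_, ?_, ?_, av.trans vh, (av.trans vh).trans hh⟩
  · calc ‖h - k‖ = ‖(h - v) - (k - v)‖ := by congr 1; abel
      _ ≤ ‖h - v‖ + ‖k - v‖ := norm_sub_le _ _
      _ ≤ √(2 * (1 - a)) + √(2 * (1 - a)) := add_le_add (sq _ hv1) (sq _ kv1)
      _ = _ := by ring
  · apply sq
    rw [p1]
    nlinarith [sq_nonneg ‖l p (h - v)‖]
  · apply sq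
    rw [p2]
    nlinarith [sq_nonneg ‖r p (h - v)‖]

end one

section core

variable {H : Type} [NormedAddCommGroup H] [InnerProductSpace ℂ H] [CompleteSpace H]

theorem cs2 (A₁ A₂ B₁ B₂ : ℝ) (h1 : 0 ≤ A₁) (h2 : 0 ≤ A₂) (h3 : 0 ≤ B₁) (h4 : 0 ≤ B₂) :
    (√A₁ * √A₂ + √B₁ * √B₂) / 2 ≤ √((A₁ + B₁) / 2) * √((A₂ + B₂) / 2) := by
  have e0 : √((A₁ + B₁) / 2) * √((A₂ + B₂) / 2) = √(((A₁ + B₁) / 2) * ((A₂ + B₂) / 2)) :=
    (Real.sqrt_mul (by positivity) _).symm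
  rw [e0]
  apply Real.le_sqrt_of_sq_le
  have e1 := Real.sq_sqrt h1
  have e2 := Real.sq_sqrt h2
  have e3 := Real.sq_sqrt h3
  have e4 := Real.sq_sqrt h4
  calc ((√A₁ * √A₂ + √B₁ * √B₂) / 2) ^ 2
      ≤ ((√A₁ ^ 2 + √B₁ ^ 2) / 2) * ((√A₂ ^ 2 + √B₂ ^ 2) / 2) := by
        nlinarith [sq_nonneg (√A₁ * √B₂ - √A₂ * √B₁)]
    _ = _ := by rw [e1, e2, e3, e4]

theorem core {I : Type} (𝒰 : Ultrafilter I) (K : I → Type)
    [∀ i, NormedAddCommGroup (K i)] [∀ i, InnerProductSpace ℂ (K i)] [∀ i, CompleteSpace (K i)]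
    (l r : ∀ i, (H →L[ℂ] H) → (K i →L[ℂ] K i)) (hc : ∀ i, CR (l i) (r i))
    (h k : ∀ i, K i) (hh : ∀ i, ‖h i‖ ≤ 1) (hk : ∀ i, ‖k i‖ ≤ 1)
    (A : Set (H →L[ℂ] H)) (p : H →L[ℂ] H) (q : (H →L[ℂ] H) → ℝ) (hp : IsPr p) (hpA : p ∈ A)
    (hqp : q p = 1)
    (hq : ∀ x ∈ A, ∀ δ : ℝ, 0 < δ → ∀ᶠ i in (𝒰 : Filter I),
      q x - δ ≤ (⟪k i, l i x (r i x (h i))⟫_ℂ).re) :
    ∃ F : (H →L[ℂ] H) → (H →L[ℂ] H) → ℂ,
      (∀ x x' y, F (x + x') y = F x y + F x' y) ∧ (∀ (c : ℂ) x y, F (c • x) y = c * F x y) ∧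
      (∀ x y, F y x = conj (F x y)) ∧ F 1 1 = 1 ∧ (∀ y, F 1 y = F p y) ∧
      (∀ y, 0 ≤ (F 1 (star y * y)).re) ∧
      (∀ x y₁ y₂, ‖F x (star y₂ * y₁)‖ ≤
        ‖x‖ * √((F 1 (star y₁ * y₁)).re) * √((F 1 (star y₂ * y₂)).re)) ∧
      ∀ x ∈ A, q x ≤ (F x x).re := by
  set a : I → ℝ := fun i => (⟪k i, l i p (r i p (h i))⟫_ℂ).re with ha
  have hest := fun i => est (l i) (r i) (hc i) p hp (h i) (k i) (hh i) (hk i) (a i) rfl
  have ha1 : Tendsto a 𝒰 (𝓝 1) := by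
    rw [Metric.tendsto_nhds]
    intro ε hε
    filter_upwards [hq p hpA (ε / 2) (by positivity)] with i hi
    rw [hqp] at hi
    have h1 := (hest i).2.2.2.2
    rw [Real.dist_eq, abs_lt]
    have h2 : 1 - ε / 2 ≤ a i := hi
    constructor <;> linarith
  set η : I → ℝ := fun i => √(2 * (1 - a i)) with hη
  have hη0 : Tendsto η 𝒰 (𝓝 0) := by
    have h1 : Tendsto (fun i => 2 * (1 - a i)) 𝒰 (𝓝 (2 * (1 - 1))) :=
      (tendsto_const_nhds.sub ha1).const_mul 2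
    have h2 := (Real.continuous_sqrt.tendsto _).comp h1
    rw [sub_self, mul_zero, Real.sqrt_zero] at h2
    exact h2
  have hln : ∀ i x (v : K i), ‖l i x v‖ ≤ ‖x‖ * ‖v‖ := fun i x v =>
    ((l i x).le_opNorm v).trans (mul_le_mul_of_nonneg_right ((hc i).l_norm x) (norm_nonneg _))
  have hrn : ∀ i x (v : K i), ‖r i x v‖ ≤ ‖x‖ * ‖v‖ := fun i x v =>
    ((r i x).le_opNorm v).trans (mul_le_mul_of_nonneg_right ((hc i).r_norm x) (norm_nonneg _))
  have hst : ∀ x y, ∃ s : ℂ, Tendsto (fun i => ⟪h i, l i x (r i y (h i))⟫_ℂ) 𝒰 (𝓝 s) := by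
    intro x y
    have hb : ∀ i, ‖⟪h i, l i x (r i y (h i))⟫_ℂ‖ ≤ ‖x‖ * ‖y‖ := by
      intro i
      have h1 := hln i x (r i y (h i))
      have h2 := hrn i y (h i)
      have h3 := norm_inner_le_norm (𝕜 := ℂ) (h i) (l i x (r i y (h i)))
      have h4 := hh i
      have h5 : ‖r i y (h i)‖ ≤ ‖y‖ := h2.trans (by
        calc ‖y‖ * ‖h i‖ ≤ ‖y‖ * 1 := mul_le_mul_of_nonneg_left h4 (norm_nonneg _)
          _ = ‖y‖ := mul_one _)
      have h6 : ‖l i x (r i y (h i))‖ ≤ ‖x‖ * ‖y‖ :=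
        h1.trans (mul_le_mul_of_nonneg_left h5 (norm_nonneg _))
      calc _ ≤ ‖h i‖ * ‖l i x (r i y (h i))‖ := h3
        _ ≤ 1 * (‖x‖ * ‖y‖) := mul_le_mul h4 h6 (norm_nonneg _) zero_le_one
        _ = _ := one_mul _
    obtain ⟨s, -, hs⟩ := (isCompact_closedBall (0 : ℂ) (‖x‖ * ‖y‖)).ultrafilter_le_nhds
      (𝒰.map fun i => ⟪h i, l i x (r i y (h i))⟫_ℂ) (by
        rw [Filter.le_principal_iff]
        change ∀ᶠ i in (𝒰 : Filter I), ⟪h i, l i x (r i y (h i))⟫_ℂ ∈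
          Metric.closedBall (0 : ℂ) (‖x‖ * ‖y‖)
        exact Filter.Eventually.of_forall fun i => by simpa using hb i)
    exact ⟨s, hs⟩
  choose st hst using hst
  have uniq : ∀ {f : I → ℂ} {a a' : ℂ}, Tendsto f 𝒰 (𝓝 a) → Tendsto f 𝒰 (𝓝 a') → a = a' :=
    fun h1 h2 => tendsto_nhds_unique h1 h2
  have st_addl : ∀ x x' y, st (x + x') y = st x y + st x' y := fun x x' y =>
    uniq (hst (x + x') y) (((hst x y).add (hst x' y)).congr fun i => by
      rw [(hc i).l_add, add_apply, inner_add_right])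
  have st_addr : ∀ x y y', st x (y + y') = st x y + st x y' := fun x y y' =>
    uniq (hst x (y + y')) (((hst x y).add (hst x y')).congr fun i => by
      rw [(hc i).r_add, add_apply, map_add, inner_add_right])
  have st_smull : ∀ (c : ℂ) x y, st (c • x) y = c * st x y := fun c x y =>
    uniq (hst (c • x) y) (((hst x y).const_mul c).congr fun i => by
      rw [(hc i).l_smul, smul_apply, inner_smul_right])
  have st_smulr : ∀ (c : ℂ) x y, st x (c • y) = conj c * st x y := fun c x y =>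
    uniq (hst x (c • y)) (((hst x y).const_mul (conj c)).congr fun i => by
      rw [(hc i).r_smul, smul_apply, map_smul, inner_smul_right])
  have st11 : st 1 1 = 1 := by
    refine uniq (hst 1 1) ?_
    have h1 : Tendsto (fun i => ‖h i‖) 𝒰 (𝓝 1) := by
      refine tendsto_of_tendsto_of_tendsto_of_le_of_le ha1 tendsto_const_nhds ?_ ?_
      · exact fun i => (hest i).2.2.2.1
      · exact fun i => hh i
    have h2 : Tendsto (fun i => ((‖h i‖ : ℝ) : ℂ) ^ 2) 𝒰 (𝓝 (((1 : ℝ) : ℂ) ^ 2)) :=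
      ((Complex.continuous_ofReal.tendsto _).comp h1).pow 2
    simp only [Complex.ofReal_one, one_pow] at h2
    refine h2.congr fun i => ?_
    rw [(hc i).l_one, (hc i).r_one]
    simp [inner_self_eq_norm_sq_to_K]
  have st1y : ∀ y, st 1 y = st p y := by
    intro y
    have h1 : Tendsto (fun i => ⟪h i, l i 1 (r i y (h i))⟫_ℂ - ⟪h i, l i p (r i y (h i))⟫_ℂ) 𝒰
        (𝓝 0) := by
      have h2 : Tendsto (fun i => η i * ‖y‖) 𝒰 (𝓝 (0 * ‖y‖)) := hη0.mul_const _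
      rw [zero_mul] at h2
      refine squeeze_zero_norm (fun i => ?_) h2
      have h3 : ⟪h i, l i p (r i y (h i))⟫_ℂ = ⟪l i p (h i), r i y (h i)⟫_ℂ := by
        have e : ⟪l i p (h i), r i y (h i)⟫_ℂ = ⟪h i, (star (l i p)) (r i y (h i))⟫_ℂ := by
          rw [ContinuousLinearMap.star_eq_adjoint, ContinuousLinearMap.adjoint_inner_right]
        rw [e, ← (hc i).l_star, hp.1]
      rw [h3, (hc i).l_one, one_apply_eq_self, ← inner_sub_left]
      have h4 := hrn i y (h i)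
      calc ‖⟪h i - l i p (h i), r i y (h i)⟫_ℂ‖ ≤ ‖h i - l i p (h i)‖ * ‖r i y (h i)‖ :=
            norm_inner_le_norm _ _
        _ ≤ η i * ‖y‖ := by
            refine mul_le_mul (hest i).2.1 (h4.trans ?_) (norm_nonneg _) (Real.sqrt_nonneg _)
            calc ‖y‖ * ‖h i‖ ≤ ‖y‖ * 1 := mul_le_mul_of_nonneg_left (hh i) (norm_nonneg _)
              _ = ‖y‖ := mul_one _
    have h5 := uniq h1 ((hst 1 y).sub (hst p y))
    exact (sub_eq_zero.1 h5.symm)
  have sty1 : ∀ y, st y 1 = st y p := by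
    intro y
    have h1 : Tendsto (fun i => ⟪h i, l i y (r i 1 (h i))⟫_ℂ - ⟪h i, l i y (r i p (h i))⟫_ℂ) 𝒰
        (𝓝 0) := by
      have h2 : Tendsto (fun i => ‖y‖ * η i) 𝒰 (𝓝 (‖y‖ * 0)) := hη0.const_mul _
      rw [mul_zero] at h2
      refine squeeze_zero_norm (fun i => ?_) h2
      rw [(hc i).r_one, one_apply_eq_self, ← inner_sub_right, ← map_sub]
      have h4 := hln i y (h i - r i p (h i))
      calc ‖⟪h i, l i y (h i - r i p (h i))⟫_ℂ‖ ≤ ‖h i‖ * ‖l i y (h i - r i p (h i))‖ :=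
            norm_inner_le_norm _ _
        _ ≤ 1 * (‖y‖ * ‖h i - r i p (h i)‖) := mul_le_mul (hh i) h4 (norm_nonneg _) zero_le_one
        _ = ‖y‖ * ‖h i - r i p (h i)‖ := one_mul _
        _ ≤ ‖y‖ * η i := mul_le_mul_of_nonneg_left (hest i).2.2.1 (norm_nonneg _)
    have h5 := uniq h1 ((hst y 1).sub (hst y p))
    exact (sub_eq_zero.1 h5.symm)
  -- squares
  have rsq : ∀ y, Tendsto (fun i => ‖r i y (h i)‖ ^ 2) 𝒰 (𝓝 (st 1 (star y * y)).re) := by
    intro y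
    refine ((Complex.continuous_re.tendsto _).comp (hst 1 (star y * y))).congr fun i => ?_
    show (⟪h i, l i 1 (r i (star y * y) (h i))⟫_ℂ).re = _
    rw [(hc i).l_one, (hc i).r_mul, (hc i).r_star, one_apply_eq_self,
      mul_apply_eq_comp, ContinuousLinearMap.star_eq_adjoint,
      ContinuousLinearMap.adjoint_inner_right]
    exact inner_self_eq_norm_sq (𝕜 := ℂ) _
  have lsq : ∀ y, Tendsto (fun i => ‖l i y (h i)‖ ^ 2) 𝒰 (𝓝 (st (star y * y) 1).re) := by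
    intro y
    refine ((Complex.continuous_re.tendsto _).comp (hst (star y * y) 1)).congr fun i => ?_
    show (⟪h i, l i (star y * y) (r i 1 (h i))⟫_ℂ).re = _
    rw [(hc i).r_one, (hc i).l_mul, (hc i).l_star, one_apply_eq_self,
      mul_apply_eq_comp, ContinuousLinearMap.star_eq_adjoint,
      ContinuousLinearMap.adjoint_inner_right]
    exact inner_self_eq_norm_sq (𝕜 := ℂ) _
  have rpos : ∀ y, 0 ≤ (st 1 (star y * y)).re := fun y =>
    ge_of_tendsto' (rsq y) fun i => by positivity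
  have lpos : ∀ y, 0 ≤ (st (star y * y) 1).re := fun y =>
    ge_of_tendsto' (lsq y) fun i => by positivity
  have rlim : ∀ y, Tendsto (fun i => ‖r i y (h i)‖) 𝒰 (𝓝 √((st 1 (star y * y)).re)) := by
    intro y
    refine ((Real.continuous_sqrt.tendsto _).comp (rsq y)).congr fun i => ?_
    exact Real.sqrt_sq (norm_nonneg _)
  have llim : ∀ y, Tendsto (fun i => ‖l i y (h i)‖) 𝒰 (𝓝 √((st (star y * y) 1).re)) := by
    intro y
    refine ((Real.continuous_sqrt.tendsto _).comp (lsq y)).congr fun i => ?_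
    exact Real.sqrt_sq (norm_nonneg _)
  have rcs : ∀ x y₁ y₂, ‖st x (star y₂ * y₁)‖ ≤
      ‖x‖ * √((st 1 (star y₁ * y₁)).re) * √((st 1 (star y₂ * y₂)).re) := by
    intro x y₁ y₂
    refine le_of_tendsto_of_tendsto' (hst x (star y₂ * y₁)).norm
      (((rlim y₁).const_mul ‖x‖).mul (rlim y₂)) fun i => ?_
    have e : l i x (r i (star y₂ * y₁) (h i)) = (star (r i y₂)) (l i x (r i y₁ (h i))) := by
      rw [(hc i).r_mul, ← (hc i).r_star, ← mul_apply_eq_comp, ← mul_assoc, (hc i).comm]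
      rfl
    rw [e, ContinuousLinearMap.star_eq_adjoint, ContinuousLinearMap.adjoint_inner_right]
    calc _ ≤ ‖r i y₂ (h i)‖ * ‖l i x (r i y₁ (h i))‖ := norm_inner_le_norm _ _
      _ ≤ ‖r i y₂ (h i)‖ * (‖x‖ * ‖r i y₁ (h i)‖) :=
          mul_le_mul_of_nonneg_left (hln _ _ _) (norm_nonneg _)
      _ = _ := by ring
  have lcs : ∀ x y₁ y₂, ‖st (star y₂ * y₁) x‖ ≤
      ‖x‖ * √((st (star y₁ * y₁) 1).re) * √((st (star y₂ * y₂) 1).re) := by
    intro x y₁ y₂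
    refine le_of_tendsto_of_tendsto' (hst (star y₂ * y₁) x).norm
      (((llim y₁).const_mul ‖x‖).mul (llim y₂)) fun i => ?_
    have e : l i (star y₂ * y₁) (r i x (h i)) = (star (l i y₂)) (r i x (l i y₁ (h i))) := by
      rw [(hc i).l_mul, ← (hc i).l_star, ← mul_apply_eq_comp, mul_assoc, (hc i).comm]
      rfl
    rw [e, ContinuousLinearMap.star_eq_adjoint, ContinuousLinearMap.adjoint_inner_right]
    calc _ ≤ ‖l i y₂ (h i)‖ * ‖r i x (l i y₁ (h i))‖ := norm_inner_le_norm _ _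
      _ ≤ ‖l i y₂ (h i)‖ * (‖x‖ * ‖l i y₁ (h i)‖) :=
          mul_le_mul_of_nonneg_left (hrn _ _ _) (norm_nonneg _)
      _ = _ := by ring
  have stq : ∀ x ∈ A, q x ≤ (st x x).re := by
    intro x hx
    have h1 : Tendsto (fun i => 2 * η i * (‖x‖ * ‖x‖)) 𝒰 (𝓝 (2 * 0 * (‖x‖ * ‖x‖))) :=
      (hη0.const_mul 2).mul_const _
    rw [mul_zero, zero_mul] at h1
    have h2 : Tendsto (fun i => (⟪h i, l i x (r i x (h i))⟫_ℂ).re + 2 * η i * (‖x‖ * ‖x‖)) 𝒰
        (𝓝 ((st x x).re + 0)) :=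
      ((Complex.continuous_re.tendsto _).comp (hst x x)).add h1
    rw [add_zero] at h2
    refine le_of_forall_pos_le_add fun δ hδ => ?_
    have h3 : Tendsto (fun i => (⟪h i, l i x (r i x (h i))⟫_ℂ).re + 2 * η i * (‖x‖ * ‖x‖) + δ) 𝒰
        (𝓝 ((st x x).re + δ)) := h2.add_const δ
    refine ge_of_tendsto h3 ?_
    filter_upwards [hq x hx δ hδ] with i hi
    have h4 : (⟪k i, l i x (r i x (h i))⟫_ℂ).re - (⟪h i, l i x (r i x (h i))⟫_ℂ).re ≤
        2 * η i * (‖x‖ * ‖x‖) := by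
      rw [← Complex.sub_re, ← inner_sub_left]
      have h5 : ‖l i x (r i x (h i))‖ ≤ ‖x‖ * ‖x‖ := by
        refine (hln i x _).trans (mul_le_mul_of_nonneg_left ?_ (norm_nonneg _))
        refine (hrn i x _).trans ?_
        calc ‖x‖ * ‖h i‖ ≤ ‖x‖ * 1 := mul_le_mul_of_nonneg_left (hh i) (norm_nonneg _)
          _ = ‖x‖ := mul_one _
      calc _ ≤ ‖⟪k i - h i, l i x (r i x (h i))⟫_ℂ‖ := Complex.re_le_norm _
        _ ≤ ‖k i - h i‖ * ‖l i x (r i x (h i))‖ := norm_inner_le_norm _ _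
        _ ≤ (2 * η i) * (‖x‖ * ‖x‖) := by
            refine mul_le_mul ?_ h5 (norm_nonneg _) (by positivity)
            rw [norm_sub_rev]
            exact (hest i).1
    linarith
  refine ⟨fun x y => (st x y + conj (st y x)) / 2, ?_, ?_, ?_, ?_, ?_, ?_, ?_, ?_⟩
  · intro x x' y
    simp only
    rw [st_addl, st_addr, map_add]
    ring
  · intro c x y
    simp only
    rw [st_smull, st_smulr, map_mul, Complex.conj_conj]
    ring
  · intro x y
    simp only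
    rw [map_div₀, map_add, Complex.conj_conj, add_comm, map_ofNat]
  · simp only
    rw [st11]
    norm_num
  · intro y
    simp only
    rw [st1y, sty1]
  · intro y
    simp only
    have e : ((st 1 (star y * y) + conj (st (star y * y) 1)) / 2).re =
        ((st 1 (star y * y)).re + (st (star y * y) 1).re) / 2 := by
      simp
    rw [e]
    have := rpos y
    have := lpos y
    linarith
  · intro x y₁ y₂
    simp only
    have e : ∀ y, ((st 1 (star y * y) + conj (st (star y * y) 1)) / 2).re =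
        ((st 1 (star y * y)).re + (st (star y * y) 1).re) / 2 := by
      intro y
      simp
    rw [e, e]
    have h1 := cs2 _ _ _ _ (rpos y₁) (rpos y₂) (lpos y₁) (lpos y₂)
    calc _ = ‖st x (star y₂ * y₁) + conj (st (star y₂ * y₁) x)‖ / 2 := by
          rw [norm_div]
          norm_num
      _ ≤ (‖st x (star y₂ * y₁)‖ + ‖st (star y₂ * y₁) x‖) / 2 := by
          have := norm_add_le (st x (star y₂ * y₁)) (conj (st (star y₂ * y₁) x))
          rw [RCLike.norm_conj] at this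
          linarith
      _ ≤ (‖x‖ * √((st 1 (star y₁ * y₁)).re) * √((st 1 (star y₂ * y₂)).re) +
            ‖x‖ * √((st (star y₁ * y₁) 1).re) * √((st (star y₂ * y₂) 1).re)) / 2 := by
          have := rcs x y₁ y₂
          have := lcs x y₁ y₂
          linarith
      _ = ‖x‖ * ((√((st 1 (star y₁ * y₁)).re) * √((st 1 (star y₂ * y₂)).re) +
            √((st (star y₁ * y₁) 1).re) * √((st (star y₂ * y₂) 1).re)) / 2) := by ring
      _ ≤ ‖x‖ * _ := mul_le_mul_of_nonneg_left h1 (norm_nonneg _)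
      _ = _ := by ring
  · intro x hx
    simp only
    have e : ((st x x + conj (st x x)) / 2).re = (st x x).re := by
      simp
    rw [e]
    exact stq x hx

end core

end H68R2.BP.Ehbaux

namespace H68R2.BP

open H759R2.Kad H744R2.KZ

theorem prove_E_hb (h1 : E_sel) : E_hb := by
  intro H _ _ _ S κ _ _ _ b l₀ r₀ th hm A p q hp hpA hA hq hqp hsum
  classical
  have hsel : ∀ i : Finset (H →L[ℂ] H) × ℕ, ∃ (n : ℕ) (h k : Fin n → S), ∑ j, ‖h j‖ ^ 2 ≤ 1 ∧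
      ∑ j, ‖k j‖ ^ 2 ≤ 1 ∧ ∀ x ∈ i.1.filter (· ∈ A),
        q x - 1 / ((i.2 : ℝ) + 1) ≤ ∑ j, (⟪k j, l₀ x (r₀ x (h j))⟫_ℂ).re := fun i =>
    h1 H S κ b l₀ r₀ th hm A q hA hq hsum (i.1.filter (· ∈ A)) (1 / ((i.2 : ℝ) + 1))
      (fun x hx => (Finset.mem_filter.1 hx).2) (by positivity)
  choose N h k hh hk hx using hsel
  have hn : ∀ (n : ℕ) (v : Fin n → S), ∑ j, ‖v j‖ ^ 2 ≤ 1 → ‖(WithLp.toLp 2 v : HH (Fin n) S)‖ ≤ 1 := by
    intro n v hv
    have h2 : ‖(WithLp.toLp 2 v : HH (Fin n) S)‖ ^ 2 ≤ 1 ^ 2 := by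
      rw [PiLp.norm_sq_eq_of_L2, one_pow]
      exact hv
    exact (pow_le_pow_iff_left₀ (norm_nonneg _) zero_le_one two_ne_zero).1 h2
  refine Ehbaux.core (Ultrafilter.of (atTop : Filter (Finset (H →L[ℂ] H) × ℕ)))
    (fun i => HH (Fin (N i)) S) (fun i x => dg (N i) (l₀ x)) (fun i x => dg (N i) (r₀ x))
    (fun i => Ehbaux.CR_dg b l₀ r₀ th hm (N i)) (fun i => WithLp.toLp 2 (h i))
    (fun i => WithLp.toLp 2 (k i)) (fun i => hn _ _ (hh i)) (fun i => hn _ _ (hk i)) A p q hp hpA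
    hqp ?_
  intro x hxA δ hδ
  apply Ultrafilter.of_le
  obtain ⟨m, hm1⟩ := exists_nat_one_div_lt hδ
  filter_upwards [eventually_ge_atTop (({x}, m) : Finset (H →L[ℂ] H) × ℕ)] with i hi
  have hi1 : x ∈ i.1 := hi.1 (Finset.mem_singleton_self x)
  have hi2 : m ≤ i.2 := hi.2
  have h3 := hx i x (Finset.mem_filter.2 ⟨hi1, hxA⟩)
  have h4 : (1 : ℝ) / ((i.2 : ℝ) + 1) ≤ 1 / ((m : ℝ) + 1) := by
    apply one_div_le_one_div_of_le (by positivity)
    have : (m : ℝ) ≤ i.2 := by exact_mod_cast hi2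
    linarith
  have h5 : (⟪(WithLp.toLp 2 (k i) : HH (Fin (N i)) S), dg (N i) (l₀ x) (dg (N i) (r₀ x)
      (WithLp.toLp 2 (h i)))⟫_ℂ).re = ∑ j, (⟪k i j, l₀ x (r₀ x (h i j))⟫_ℂ).re := by
    rw [PiLp.inner_apply, Complex.re_sum]
    refine Finset.sum_congr rfl fun j _ => ?_
    rw [dg_apply, dg_apply]
  show q x - δ ≤ (⟪(WithLp.toLp 2 (k i) : HH (Fin (N i)) S), dg (N i) (l₀ x) (dg (N i) (r₀ x)
      (WithLp.toLp 2 (h i)))⟫_ℂ).re
  rw [h5]
  linarith

end H68R2.BP
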